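import Pool.Agent.R713.AS.Gap

/-!
# The roots and the number of real solutions
-/

set_option autoImplicit false

namespace Pool.Agent.R713.AS

open Polynomial

/-- index of the roots -/
abbrev Ix (e p : ℕ) : Type := Option (Fin e ⊕ (Fin p × Bool))

/-- left root of a pair -/
def lo {F : Type} [Field F] (k : ℕ) : F := 4 * k + 2

/-- right root of a pair: near the left one for `k < j` -/
def hi {F : Type} [Field F] (j : ℕ) (δ : F) (k : ℕ) : F :=
  if k < j then 4 * k + 2 + δ else 4 * k + 4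

/-- the roots -/
def rt {F : Type} [Field F] (e p j : ℕ) (δ α : F) : Ix e p → F
  | none => - α
  | some (Sum.inl _) => - 4
  | some (Sum.inr (k, false)) => lo k
  | some (Sum.inr (k, true)) => hi j δ k

theorem card_Ix (e p : ℕ) : Fintype.card (Ix e p) = 1 + e + 2 * p := by
  simp [Ix, Fintype.card_option, Fintype.card_sum, Fintype.card_prod]
  ring

theorem prod_rt {F : Type} [Field F] (e p j : ℕ) (δ α x : F) :
    ∏ i, (x - rt e p j δ α i) =
      (x + α) * ((x + 4) ^ e * ∏ k : Fin p, ((x - hi j δ k) * (x - lo k))) := by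
  rw [Fintype.prod_option, Fintype.prod_sum_type, Fintype.prod_prod_type]
  simp [rt, Fintype.prod_bool, sub_neg_eq_add]

/-! ### Over the reals -/

section Real

variable {e p j : ℕ} {δ α : ℝ}

theorem lo_pos (k : ℕ) : (2 : ℝ) ≤ lo k := by
  unfold lo
  have : (0 : ℝ) ≤ k := by positivity
  linarith

theorem lo_lt (j : ℕ) {δ : ℝ} (hδ : 0 < δ) (k : ℕ) : (lo k : ℝ) < hi j δ k := by
  unfold lo hi
  split_ifs <;> linarith

theorem hi_le (j : ℕ) {δ : ℝ} (hδ : δ ≤ 1) (k : ℕ) : hi j δ k ≤ 4 * (k : ℝ) + 4 := by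
  unfold hi
  split_ifs <;> linarith

theorem hi_le' (j : ℕ) {δ : ℝ} (hδ : δ ≤ 1) {k k' : ℕ} (h : k < k') :
    hi j δ k + 2 ≤ (lo k' : ℝ) := by
  have h1 := hi_le j hδ k
  unfold lo
  have h2 : (k : ℝ) + 1 ≤ k' := by exact_mod_cast h
  linarith

theorem eval_rt (x : ℝ) : (PP (rt e p j δ α)).eval x =
    (x + α) * ((x + 4) ^ e * ∏ k : Fin p, ((x - hi j δ k) * (x - lo k))) := by
  rw [eval_PP, prod_rt]

theorem quad_nonneg (hδ : 0 < δ) (k : ℕ) (x : ℝ) (h : ¬ (lo k < x ∧ x < hi j δ k)) :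
    0 ≤ (x - hi j δ k) * (x - lo k) := by
  have h1 := lo_lt j hδ k
  rcases le_or_gt x (lo k) with h2 | h2
  · exact mul_nonneg_of_nonpos_of_nonpos (by linarith) (by linarith)
  · have h3 : hi j δ k ≤ x := by
      by_contra h4
      exact h ⟨h2, not_le.1 h4⟩
    exact mul_nonneg (by linarith) (by linarith)

theorem one_le_mul_of_le_neg_one {x y : ℝ} (hx : x ≤ -1) (hy : y ≤ -1) : 1 ≤ x * y := by
  nlinarith

theorem quad_left (hδ : 0 < δ) (k : ℕ) (x : ℝ) (h : x ≤ 1) :
    1 ≤ (x - hi j δ k) * (x - lo k) := by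
  have h1 := lo_lt j hδ k
  have h2 := lo_pos k
  exact one_le_mul_of_le_neg_one (by linarith) (by linarith)

theorem prod_left (hδ : 0 < δ) (x : ℝ) (h : x ≤ 1) :
    1 ≤ ∏ k : Fin p, ((x - hi j δ k) * (x - lo k)) := by
  calc (1 : ℝ) = ∏ k : Fin p, (1 : ℝ) := by simp
    _ ≤ _ := Finset.prod_le_prod (fun _ _ => zero_le_one) fun k _ => quad_left hδ k x h

theorem finite_sol (v : ℝ) (hv : 0 < v) :
    {x : ℝ | (PP (rt e p j δ α)).eval x = - v}.Finite := by
  have h0 : PP (rt e p j δ α) + C v ≠ 0 := by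
    intro h
    have h1 := congrArg (eval (- α)) h
    rw [eval_add, eval_C, eval_zero, eval_rt] at h1
    simp at h1
    linarith
  refine (Polynomial.finite_setOf_isRoot h0).subset fun x hx => ?_
  simp only [Set.mem_ofPred_eq, IsRoot.def, eval_add, eval_C] at hx ⊢
  linarith

theorem cover (hα : 1 < α) (hα2 : α ≤ 2) (hδ : 0 < δ) (x v : ℝ) (hv : 0 < v)
    (hx : (PP (rt e p j δ α)).eval x = - v) :
    x < - α ∨ ∃ k : Fin p, lo k < x ∧ x < hi j δ k := by
  by_contra h
  push Not at h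
  obtain ⟨h1, h2⟩ := h
  rw [eval_rt] at hx
  have h3 : 0 ≤ ∏ k : Fin p, ((x - hi j δ k) * (x - lo k)) :=
    Finset.prod_nonneg fun k _ => quad_nonneg hδ k x (fun h => absurd h.2 (not_lt.2 (h2 k h.1)))
  have h4 : 0 ≤ (x + α) * ((x + 4) ^ e * ∏ k : Fin p, ((x - hi j δ k) * (x - lo k))) :=
    mul_nonneg (by linarith) (mul_nonneg (pow_nonneg (by linarith) _) h3)
  linarith

theorem count_left (he : e ≤ 1) (hα : 1 < α) (hα2 : α ≤ 2) (hδ : 0 < δ) (hδ1 : δ ≤ 1)
    (v : ℝ) (hv : 0 < v) (hv1 : v < 1) :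
    ({x : ℝ | (PP (rt e p j δ α)).eval x = - v} ∩ Set.Iio (- α)).ncard = 1 + e := by
  have hroot : (PP (rt e p j δ α)).eval (- α) = 0 := by rw [eval_rt]; simp
  rcases Nat.le_one_iff_eq_zero_or_eq_one.1 he with rfl | rfl
  · rw [add_zero]
    refine left (rt 0 p j δ α) (- α) v ?_ hroot hv ?_
    · rintro (_ | (i | ⟨k, _ | _⟩))
      · exact le_rfl
      · exact i.elim0
      · have := lo_pos (k : ℕ)
        simp only [rt]
        linarith
      · have := lo_pos (k : ℕ)
        have := lo_lt j hδ (k : ℕ)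
        simp only [rt]
        linarith
    · rw [eval_rt]
      have := prod_left (p := p) (j := j) hδ (- α - 1) (by linarith)
      rw [pow_zero, one_mul]
      nlinarith
  · have hset : {x : ℝ | (PP (rt 1 p j δ α)).eval x = - v} ∩ Set.Iio (- α) =
        {x : ℝ | (PP (rt 1 p j δ α)).eval x = - v} ∩ Set.Ioo (-4) (- α) := by
      ext x
      simp only [Set.mem_inter_iff, Set.mem_ofPred_eq, Set.mem_Iio, Set.mem_Ioo]
      refine ⟨fun ⟨h1, h2⟩ => ⟨h1, ?_, h2⟩, fun ⟨h1, _, h2⟩ => ⟨h1, h2⟩⟩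
      by_contra h3
      rw [eval_rt] at h1
      have h4 := prod_left (p := p) (j := j) hδ x (by linarith)
      have h5 : 0 ≤ (x + α) * ((x + 4) ^ 1 * ∏ k : Fin p, ((x - hi j δ k) * (x - lo k))) := by
        rw [← mul_assoc, pow_one]
        exact mul_nonneg (mul_nonneg_of_nonpos_of_nonpos (by linarith) (by linarith))
          (by linarith)
      linarith
    rw [hset]
    refine gap (rt 1 p j δ α) (-4) (- α) (-3) v ?_ ?_ hroot (by norm_num) (by linarith) hv ?_
    · rintro (_ | (i | ⟨k, _ | _⟩))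
      · right; exact le_rfl
      · left; exact le_rfl
      · have := lo_pos (k : ℕ)
        right
        simp only [rt]
        linarith
      · have := lo_pos (k : ℕ)
        have := lo_lt j hδ (k : ℕ)
        right
        simp only [rt]
        linarith
    · rw [eval_rt]; simp
    · rw [eval_rt]
      have := prod_left (p := p) (j := j) hδ (-3) (by linarith)
      rw [pow_one]
      nlinarith

theorem count_deep (hα : 1 < α) (hδ : 0 < δ) (hδ1 : δ ≤ 1) (v : ℝ) (hv : 0 < v)
    (hv1 : v < 1) (k : Fin p) (hk : ¬ (k : ℕ) < j) :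
    ({x : ℝ | (PP (rt e p j δ α)).eval x = - v} ∩ Set.Ioo (lo k) (hi j δ k)).ncard = 2 := by
  have hlo : (lo k : ℝ) = 4 * (k : ℕ) + 2 := rfl
  have hhi : hi j δ k = 4 * ((k : ℕ) : ℝ) + 4 := by rw [hi, if_neg hk]
  have hk0 : (0 : ℝ) ≤ (k : ℕ) := by positivity
  refine gap (rt e p j δ α) (lo k) (hi j δ k) (4 * (k : ℕ) + 3) v ?_ ?_ ?_ ?_ ?_ hv ?_
  · have key : ∀ k' : Fin p, ((lo k' : ℝ) ≤ lo k ∧ (hi j δ k' ≤ lo k ∨ hi j δ k ≤ hi j δ k')) ∨
        (hi j δ k ≤ lo k' ∧ hi j δ k ≤ hi j δ k') := by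
      intro k'
      rcases lt_trichotomy (k' : ℕ) (k : ℕ) with h | h | h
      · have h1 := hi_le' j hδ1 h
        have h2 := lo_lt j hδ (k' : ℕ)
        left
        exact ⟨by linarith, Or.inl (by linarith)⟩
      · rw [h]
        left
        exact ⟨le_rfl, Or.inr le_rfl⟩
      · have h1 := hi_le' j hδ1 h
        have h2 := lo_lt j hδ (k' : ℕ)
        right
        exact ⟨by linarith, by linarith⟩
    rintro (_ | (i | ⟨k', _ | _⟩))
    · left
      simp only [rt]
      rw [hlo]
      linarith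
    · left
      simp only [rt]
      rw [hlo]
      linarith
    · simp only [rt]
      rcases key k' with h | h
      · exact Or.inl h.1
      · exact Or.inr h.1
    · simp only [rt]
      rcases key k' with h | h
      · exact h.2
      · exact Or.inr h.2
  · rw [eval_rt]
    have : ∏ i : Fin p, (((lo k : ℝ) - hi j δ i) * (lo k - lo i)) = 0 :=
      Finset.prod_eq_zero (Finset.mem_univ k) (by rw [sub_self, mul_zero])
    rw [this]
    ring
  · rw [eval_rt]
    have : ∏ i : Fin p, (((hi j δ k : ℝ) - hi j δ i) * (hi j δ k - lo i)) = 0 :=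
      Finset.prod_eq_zero (Finset.mem_univ k) (by rw [sub_self, zero_mul])
    rw [this]
    ring
  · rw [hlo]; linarith
  · rw [hhi]; linarith
  · rw [eval_rt]
    classical
    rw [← Finset.mul_prod_erase _ _ (Finset.mem_univ k)]
    have h1 : ((4 * ((k : ℕ) : ℝ) + 3) - hi j δ k) * ((4 * ((k : ℕ) : ℝ) + 3) - lo k) = -1 := by
      rw [hhi, hlo]
      ring
    have h2 : 1 ≤ ∏ i ∈ Finset.univ.erase k,
        (((4 * ((k : ℕ) : ℝ) + 3) - hi j δ i) * ((4 * ((k : ℕ) : ℝ) + 3) - lo i)) := by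
      calc (1 : ℝ) = ∏ i ∈ Finset.univ.erase k, (1 : ℝ) := by simp
        _ ≤ _ := Finset.prod_le_prod (fun _ _ => zero_le_one) fun i hi' => ?_
      have hne : (i : ℕ) ≠ (k : ℕ) := fun h => (Finset.mem_erase.1 hi').1 (Fin.ext h)
      rcases lt_or_gt_of_ne hne with h | h
      · have h3 := hi_le' j hδ1 h
        rw [hlo] at h3
        have h4 := lo_lt j hδ (i : ℕ)
        exact one_le_mul_of_one_le_of_one_le (by linarith) (by linarith)
      · have h3 := hi_le' j hδ1 h
        rw [hhi] at h3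
        have h4 := lo_lt j hδ (i : ℕ)
        exact one_le_mul_of_le_neg_one (by linarith) (by linarith)
    rw [h1]
    have h3 : 1 ≤ 4 * ((k : ℕ) : ℝ) + 3 + α := by linarith
    have h4 : 1 ≤ (4 * ((k : ℕ) : ℝ) + 3 + 4) ^ e := one_le_pow₀ (by linarith)
    set Pr := ∏ i ∈ Finset.univ.erase k,
        (((4 * ((k : ℕ) : ℝ) + 3) - hi j δ i) * ((4 * ((k : ℕ) : ℝ) + 3) - lo i))
    have h5 : 1 ≤ (4 * ((k : ℕ) : ℝ) + 3 + α) * ((4 * ((k : ℕ) : ℝ) + 3 + 4) ^ e * Pr) :=
      one_le_mul_of_one_le_of_one_le h3 (one_le_mul_of_one_le_of_one_le h4 h2)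
    nlinarith

theorem count_shallow (hα : 1 < α) (hα2 : α ≤ 2) (hδ : 0 < δ) (hδ1 : δ ≤ 1) (v : ℝ)
    (hv : 0 < v) (hδv : δ * (4 * p + 8) ^ (1 + e + 2 * p) < v) (k : Fin p) (hk : (k : ℕ) < j) :
    ({x : ℝ | (PP (rt e p j δ α)).eval x = - v} ∩ Set.Ioo (lo k) (hi j δ k)).ncard = 0 := by
  have hset : {x : ℝ | (PP (rt e p j δ α)).eval x = - v} ∩ Set.Ioo (lo k) (hi j δ k) = ∅ := by
    rw [Set.eq_empty_iff_forall_notMem]
    rintro x ⟨hx, hx1, hx2⟩
    simp only [Set.mem_ofPred_eq] at hx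
    rw [eval_PP] at hx
    have habs : |∏ i, (x - rt e p j δ α i)| = v := by rw [hx, abs_neg, abs_of_pos hv]
    rw [Finset.abs_prod] at habs
    classical
    rw [← Finset.mul_prod_erase _ _ (Finset.mem_univ (some (Sum.inr (k, false)) : Ix e p))]
      at habs
    have hlo : (lo k : ℝ) = 4 * (k : ℕ) + 2 := rfl
    have hhi : hi j δ k = 4 * ((k : ℕ) : ℝ) + 2 + δ := by rw [hi, if_pos hk]
    have hk0 : (0 : ℝ) ≤ (k : ℕ) := by positivity
    have hkp : ((k : ℕ) : ℝ) + 1 ≤ p := by exact_mod_cast k.2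
    have h1 : |x - rt e p j δ α (some (Sum.inr (k, false)))| ≤ δ := by
      simp only [rt]
      rw [abs_of_pos (by linarith)]
      rw [hhi] at hx2
      rw [hlo]
      linarith
    have h2 : ∏ i ∈ Finset.univ.erase (some (Sum.inr (k, false)) : Ix e p),
        |x - rt e p j δ α i| ≤ (4 * p + 8 : ℝ) ^ (e + 2 * p) := by
      have h3 : ∏ i ∈ Finset.univ.erase (some (Sum.inr (k, false)) : Ix e p),
        |x - rt e p j δ α i| ≤ ∏ i ∈ Finset.univ.erase (some (Sum.inr (k, false)) : Ix e p),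
          (4 * p + 8 : ℝ) := by
        refine Finset.prod_le_prod (fun _ _ => abs_nonneg _) fun i _ => ?_
        rw [hlo] at hx1
        rw [hhi] at hx2
        rcases i with (_ | (i | ⟨k', _ | _⟩))
        · simp only [rt]
          rw [abs_le]
          constructor <;> linarith
        · simp only [rt]
          rw [abs_le]
          constructor <;> linarith
        · have h4 := lo_pos (k' : ℕ)
          have h5 : ((k' : ℕ) : ℝ) + 1 ≤ p := by exact_mod_cast k'.2
          have h6 : (lo k' : ℝ) = 4 * (k' : ℕ) + 2 := rfl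
          simp only [rt]
          rw [abs_le]
          constructor <;> linarith
        · have h4 := lo_pos (k' : ℕ)
          have h5 : ((k' : ℕ) : ℝ) + 1 ≤ p := by exact_mod_cast k'.2
          have h6 := lo_lt j hδ (k' : ℕ)
          have h7 := hi_le j hδ1 (k' : ℕ)
          simp only [rt]
          rw [abs_le]
          constructor <;> linarith
      refine h3.trans (le_of_eq ?_)
      rw [Finset.prod_const, Finset.card_erase_of_mem (Finset.mem_univ _), Finset.card_univ,
        card_Ix]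
      congr 1
      omega
    have h4 : (1 : ℝ) ≤ 4 * p + 8 := by
      have : (0 : ℝ) ≤ p := by positivity
      linarith
    have h5 : (4 * p + 8 : ℝ) ^ (e + 2 * p) ≤ (4 * p + 8 : ℝ) ^ (1 + e + 2 * p) :=
      pow_le_pow_right₀ h4 (by omega)
    have h6 : v ≤ δ * (4 * p + 8 : ℝ) ^ (1 + e + 2 * p) := by
      rw [← habs]
      exact mul_le_mul h1 (h2.trans h5) (Finset.prod_nonneg fun _ _ => abs_nonneg _) hδ.le
    linarith
  rw [hset, Set.ncard_empty]

/-- the number of real solutions -/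
theorem count (he : e ≤ 1) (hj : j ≤ p) (hα : 1 < α) (hα2 : α ≤ 2) (hδ : 0 < δ) (hδ1 : δ ≤ 1)
    (v : ℝ) (hδv : δ * (4 * p + 8) ^ (1 + e + 2 * p) < v) (hv1 : v < 1) :
    {x : ℝ | (PP (rt e p j δ α)).eval x = - v}.ncard = 1 + e + 2 * (p - j) := by
  have hv : 0 < v := lt_trans (by positivity) hδv
  rw [ncard_pieces (κ := Option (Fin p)) _ (finite_sol v hv)
    (fun o => o.elim (Set.Iio (- α)) fun k => Set.Ioo (lo k) (hi j δ k)) ?_ ?_
    (fun o => o.elim (1 + e) fun k => if (k : ℕ) < j then 0 else 2) ?_]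
  · rw [Fintype.sum_option]
    simp only [Option.elim_none, Option.elim_some]
    congr 1
    rw [Fin.sum_univ_eq_sum_range (fun k => if k < j then 0 else 2) p, Finset.sum_ite,
      Finset.sum_const_zero, zero_add, Finset.sum_const, smul_eq_mul]
    have : (Finset.range p).filter (fun k => ¬ k < j) = Finset.Ico j p := by
      ext k
      simp only [Finset.mem_filter, Finset.mem_range, Finset.mem_Ico]
      omega
    rw [this, Nat.card_Ico]
    ring
  · intro x hx
    rcases cover hα hα2 hδ x v hv hx with h | ⟨k, h1, h2⟩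
    · exact ⟨none, h⟩
    · exact ⟨some k, h1, h2⟩
  · rintro (_ | k) (_ | k') x h1 h2
    · rfl
    · exfalso
      simp only [Option.elim_none, Option.elim_some, Set.mem_Iio, Set.mem_Ioo] at h1 h2
      have := lo_pos (k' : ℕ)
      linarith [h2.1]
    · exfalso
      simp only [Option.elim_none, Option.elim_some, Set.mem_Iio, Set.mem_Ioo] at h1 h2
      have := lo_pos (k : ℕ)
      linarith [h1.1]
    · simp only [Option.elim_some, Set.mem_Ioo] at h1 h2
      congr 1
      rcases lt_trichotomy (k : ℕ) (k' : ℕ) with h | h | h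
      · have := hi_le' j hδ1 h
        exfalso
        linarith [h1.2, h2.1]
      · exact Fin.ext h
      · have := hi_le' j hδ1 h
        exfalso
        linarith [h2.2, h1.1]
  · rintro (_ | k)
    · exact count_left he hα hα2 hδ hδ1 v hv hv1
    · simp only [Option.elim_some]
      split_ifs with hk
      · exact count_shallow hα hα2 hδ hδ1 v hv hδv k hk
      · exact count_deep hα hδ hδ1 v hv hv1 k hk

end Real

end Pool.Agent.R713.AS
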