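import Pool.Agent.R713.AS.Cnt
import Pool.Agent.W289.CG.Stm

/-!
# The data for every signature
-/

set_option autoImplicit false

namespace Pool.Agent.R713.AS

open Polynomial Pool.Agent.W289.CG

/-! ### The last root -/

theorem loQ (k : ℕ) : (2 : ℚ) ≤ lo k := by
  unfold lo
  have : (0 : ℚ) ≤ k := by positivity
  linarith

theorem loQ_lt (j : ℕ) {δ : ℚ} (hδ : 0 < δ) (k : ℕ) : (lo k : ℚ) < hi j δ k := by
  unfold lo hi
  split_ifs <;> linarith

theorem ex_alpha (e p j : ℕ) (he : e ≤ 1) (δ : ℚ) (hδ : 0 < δ) (hδ1 : δ ≤ 1) :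
    ∃ α : ℚ, 1 < α ∧ α ≤ 2 ∧ 0 < ∏ i, (1 - rt e (p + 1) j δ α i) ∧
      ∏ i, (1 - rt e (p + 1) j δ α i) = ∏ i, (-1 - rt e (p + 1) j δ α i) := by
  set G1 : ℚ := (1 + 4) ^ e * ∏ k : Fin (p + 1), ((1 - hi j δ k) * (1 - lo k)) with hG1
  set Gm : ℚ := (-1 + 4) ^ e * ∏ k : Fin (p + 1), ((-1 - hi j δ k) * (-1 - lo k)) with hGm
  have hu : ∀ k : Fin (p + 1), 0 < (1 - hi j δ k) * (1 - lo k) := fun k => by
    have h1 := loQ (k : ℕ)
    have h2 := loQ_lt j hδ (k : ℕ)
    exact mul_pos_of_neg_of_neg (by linarith) (by linarith)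
  have huw : ∀ k : Fin (p + 1), (1 - hi j δ k) * (1 - lo k) ≤ (-1 - hi j δ k) * (-1 - lo k) :=
    fun k => by
      have h1 := loQ (k : ℕ)
      have h2 := loQ_lt j hδ (k : ℕ)
      nlinarith
  have h0 : 5 * ((1 - hi j δ (0 : Fin (p + 1))) * (1 - lo ((0 : Fin (p + 1)) : ℕ))) ≤
      (-1 - hi j δ (0 : Fin (p + 1))) * (-1 - lo ((0 : Fin (p + 1)) : ℕ)) := by
    have h1 : (lo ((0 : Fin (p + 1)) : ℕ) : ℚ) = 2 := by simp [lo]
    have h2 : hi j δ (0 : Fin (p + 1)) ≤ 4 := by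
      unfold hi
      split_ifs <;> simp <;> linarith
    rw [h1]
    linarith
  have hP : 5 * ∏ k : Fin (p + 1), ((1 - hi j δ k) * (1 - lo k)) ≤
      ∏ k : Fin (p + 1), ((-1 - hi j δ k) * (-1 - lo k)) := by
    rw [Fin.prod_univ_succ, Fin.prod_univ_succ, ← mul_assoc]
    refine mul_le_mul h0 (Finset.prod_le_prod (fun k _ => (hu k.succ).le) fun k _ => huw k.succ)
      (Finset.prod_nonneg fun k _ => (hu k.succ).le) ?_
    have := hu 0
    linarith [huw 0]
  have hP0 : 0 < ∏ k : Fin (p + 1), ((1 - hi j δ k) * (1 - lo k)) :=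
    Finset.prod_pos fun k _ => hu k
  have hG10 : 0 < G1 := by rw [hG1]; positivity
  have h3 : 3 * G1 ≤ Gm := by
    rcases Nat.le_one_iff_eq_zero_or_eq_one.1 he with rfl | rfl
    · rw [hG1, hGm, pow_zero, pow_zero, one_mul, one_mul]
      linarith
    · rw [hG1, hGm, pow_one, pow_one]
      linarith
  have hd : 0 < Gm - G1 := by linarith
  refine ⟨(Gm + G1) / (Gm - G1), ?_, ?_, ?_, ?_⟩
  · rw [lt_div_iff₀ hd]; linarith
  · rw [div_le_iff₀ hd]; linarith
  · rw [prod_rt]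
    have : 0 < (Gm + G1) / (Gm - G1) := div_pos (by linarith) hd
    exact mul_pos (by linarith) hG10
  · rw [prod_rt, prod_rt, ← hG1, ← hGm]
    field_simp
    ring

theorem rt_cast (e p j : ℕ) (δ α : ℚ) (i : Ix e p) :
    ((rt e p j δ α i : ℚ) : ℝ) = rt e p j (δ : ℝ) (α : ℝ) i := by
  rcases i with (_ | (i | ⟨k, _ | _⟩))
  · simp [rt]
  · simp [rt]
  · simp [rt, lo]
  · simp only [rt, hi]
    split_ifs <;> push_cast <;> ring

theorem rt_inj {e p j : ℕ} (he : e ≤ 1) {δ α : ℝ} (hα : 1 < α) (hα2 : α ≤ 2) (hδ : 0 < δ)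
    (hδ1 : δ ≤ 1) : Function.Injective (rt e p j δ α) := by
  have hne : ∀ k k' : Fin p, (lo k : ℝ) ≠ hi j δ k' := by
    intro k k'
    rcases lt_trichotomy (k : ℕ) (k' : ℕ) with h | h | h
    · have h1 := hi_le' j hδ1 h
      have h2 := lo_lt j hδ (k : ℕ)
      have h3 := lo_lt j hδ (k' : ℕ)
      exact (by linarith : (lo k : ℝ) < hi j δ k').ne
    · rw [h]
      exact (lo_lt j hδ (k' : ℕ)).ne
    · have h1 := hi_le' j hδ1 h
      exact (by linarith : hi j δ k' < (lo k : ℝ)).ne'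
  rintro (_ | (i | ⟨k, _ | _⟩)) (_ | (i' | ⟨k', _ | _⟩)) h <;> simp only [rt] at h
  · rfl
  · exfalso; linarith
  · have := lo_pos (k' : ℕ); exfalso; linarith
  · have := lo_pos (k' : ℕ); have := lo_lt j hδ (k' : ℕ); exfalso; linarith
  · exfalso; linarith
  · have : i = i' := Fin.ext (by omega)
    rw [this]
  · have := lo_pos (k' : ℕ); exfalso; linarith
  · have := lo_pos (k' : ℕ); have := lo_lt j hδ (k' : ℕ); exfalso; linarith
  · have := lo_pos (k : ℕ); exfalso; linarith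
  · have := lo_pos (k : ℕ); exfalso; linarith
  · have h1 : ((k : ℕ) : ℝ) = (k' : ℕ) := by
      unfold lo at h
      linarith
    have h2 : k = k' := Fin.ext (by exact_mod_cast h1)
    rw [h2]
  · exact absurd h (hne k k')
  · have := lo_pos (k : ℕ); have := lo_lt j hδ (k : ℕ); exfalso; linarith
  · have := lo_pos (k : ℕ); have := lo_lt j hδ (k : ℕ); exfalso; linarith
  · exact absurd h.symm (hne k' k)
  · have h2 : k = k' := by
      rcases lt_trichotomy (k : ℕ) (k' : ℕ) with h3 | h3 | h3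
      · have h1 := hi_le' j hδ1 h3
        have h2 := lo_lt j hδ (k' : ℕ)
        exfalso
        linarith
      · exact Fin.ext h3
      · have h1 := hi_le' j hδ1 h3
        have h2 := lo_lt j hδ (k : ℕ)
        exfalso
        linarith
    rw [h2]

/-- integral multiples -/
theorem ex_int {ι : Type} [Fintype ι] (r : ι → ℚ) :
    ∃ (T : ℕ) (z : ι → ℤ), 0 < T ∧ ∀ i, (z i : ℚ) = T * r i := by
  classical
  refine ⟨∏ i, (r i).den, fun i => (∏ i' ∈ Finset.univ.erase i, ((r i').den : ℤ)) * (r i).num,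
    Finset.prod_pos fun i _ => (r i).pos, fun i => ?_⟩
  rw [← Finset.prod_erase_mul _ _ (Finset.mem_univ i)]
  push_cast
  rw [mul_assoc, Rat.den_mul_eq_num]

theorem eval_pA {n : ℕ} (a : Fin n → ℤ) (x : ℤ) : (pA a).eval x = ∏ i, (x - a i) := by
  rw [pA, eval_prod]
  exact Finset.prod_congr rfl fun i _ => by simp

theorem map_pA {n : ℕ} {ι : Type} [Fintype ι] (z : ι → ℤ) (q : Fin n ≃ ι) :
    (pA (z ∘ q)).map (Int.castRingHom ℝ) = PP (fun i => (z i : ℝ)) := by
  rw [pA, Polynomial.map_prod, PP, ← Equiv.prod_comp q]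
  exact Finset.prod_congr rfl fun i _ => by simp

theorem ex_data (e p j : ℕ) (he : e ≤ 1) (hj : j ≤ p + 1) :
    ∃ (D : Dat (1 + e + 2 * (p + 1)) 2) (v₁ v₂ : ℝ), 0 < v₁ ∧ v₁ < v₂ ∧ ∀ v, v₁ < v → v < v₂ →
      {X : ℝ | ∏ i, (X - (D.a i : ℝ)) = - v}.ncard = 1 + e + 2 * (p + 1 - j) := by
  set n := 1 + e + 2 * (p + 1) with hn
  set M : ℚ := 4 * ((p + 1 : ℕ) : ℚ) + 8 with hM
  have hM1 : 1 ≤ M := by
    rw [hM]
    have : (0 : ℚ) ≤ ((p + 1 : ℕ) : ℚ) := by positivity
    linarith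
  have hMn : 1 ≤ M ^ n := one_le_pow₀ hM1
  set δ : ℚ := 1 / (2 * M ^ n) with hδdef
  have hδ : 0 < δ := by positivity
  have hδ1 : δ ≤ 1 := by
    rw [hδdef, div_le_one (by positivity)]
    linarith
  obtain ⟨α, hα, hα2, hc0, hc⟩ := ex_alpha e p j he δ hδ hδ1
  obtain ⟨T, z, hT, hz⟩ := ex_int (rt e (p + 1) j δ α)
  have hδR : (0 : ℝ) < (δ : ℝ) := by exact_mod_cast hδ
  have hδR1 : (δ : ℝ) ≤ 1 := by exact_mod_cast hδ1
  have hαR : (1 : ℝ) < (α : ℝ) := by exact_mod_cast hα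
  have hαR2 : (α : ℝ) ≤ 2 := by exact_mod_cast hα2
  have hTR : (0 : ℝ) < T := by exact_mod_cast hT
  have hTQ : (0 : ℚ) < T := by exact_mod_cast hT
  have hzR : ∀ i, (z i : ℝ) = T * rt e (p + 1) j (δ : ℝ) (α : ℝ) i := by
    intro i
    rw [← rt_cast]
    have := hz i
    have h2 : ((z i : ℚ) : ℝ) = ((T * rt e (p + 1) j δ α i : ℚ) : ℝ) := by rw [this]
    push_cast at h2
    exact h2
  have hcard : Fintype.card (Ix e (p + 1)) = n := card_Ix e (p + 1)
  set q : Fin n ≃ Ix e (p + 1) := (Fintype.equivFinOfCardEq hcard).symm with hq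
  have hprod : ∀ x : ℤ, ((∏ i, (x * T - (z ∘ q) i) : ℤ) : ℚ) =
      (T : ℚ) ^ n * ∏ i, (x - rt e (p + 1) j δ α i) := by
    intro x
    have h1 : ∏ i, (x * T - (z ∘ q) i) = ∏ i, (x * T - z i) :=
      Equiv.prod_comp q (fun i => x * T - z i)
    rw [h1]
    push_cast
    have h2 : (T : ℚ) ^ n = ∏ _i : Ix e (p + 1), (T : ℚ) := by
      rw [Finset.prod_const, Finset.card_univ, hcard]
    rw [h2, ← Finset.prod_mul_distrib]
    refine Finset.prod_congr rfl fun i _ => ?_
    rw [hz i]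
    ring
  have hposQ : (0 : ℚ) < ((∏ i, ((1 : ℤ) * T - (z ∘ q) i) : ℤ) : ℚ) := by
    rw [hprod]
    have : (0 : ℚ) < (T : ℚ) ^ n := by positivity
    have h2 := mul_pos this hc0
    push_cast
    exact h2
  have heq : (∏ i, ((1 : ℤ) * T - (z ∘ q) i)) = ∏ i, ((-1 : ℤ) * T - (z ∘ q) i) := by
    have : ((∏ i, ((1 : ℤ) * T - (z ∘ q) i) : ℤ) : ℚ) =
        ((∏ i, ((-1 : ℤ) * T - (z ∘ q) i) : ℤ) : ℚ) := by
      rw [hprod, hprod]
      push_cast
      rw [hc]
    exact_mod_cast this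
  have hlo0 : (z (some (Sum.inr (0, false))) : ℝ) = 2 * T := by
    rw [hzR]
    simp [rt, lo]
    ring
  have : Nonempty (Ix e (p + 1)) := ⟨none⟩
  -- the derivatives
  have hderR : (derivative (PP fun i => (z i : ℝ))).eval (-(T : ℝ)) ≠ 0 ∧
      (derivative (PP fun i => (z i : ℝ))).eval (T : ℝ) ≠ 0 := by
    refine der_ne (fun i => (z i : ℝ)) (- (T * α)) (2 * T) (-T) T ?_ (by nlinarith)
      (by linarith) (by linarith) ?_
    · intro i
      simp only [hzR]
      rcases i with (_ | (i | ⟨k, _ | _⟩))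
      · left
        simp only [rt]
        linarith
      · left
        simp only [rt]
        nlinarith
      · right
        have := lo_pos (k : ℕ)
        simp only [rt]
        nlinarith
      · right
        have := lo_pos (k : ℕ)
        have := lo_lt j hδR (k : ℕ)
        simp only [rt]
        nlinarith
    · rw [eval_PP, eval_PP]
      have h1 : ((∏ i, ((1 : ℤ) * T - (z ∘ q) i) : ℤ) : ℝ) =
        ((∏ i, ((-1 : ℤ) * T - (z ∘ q) i) : ℤ) : ℝ) := by rw [heq]
      have h2 : ∀ x : ℤ, ∏ i, (x * T - (z ∘ q) i) = ∏ i, (x * T - z i) := fun x =>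
        Equiv.prod_comp q (fun i => x * T - z i)
      rw [h2, h2] at h1
      push_cast at h1
      rw [one_mul, neg_one_mul] at h1
      exact h1.symm
  have hder0 : ∀ x : ℤ, (derivative (PP fun i => (z i : ℝ))).eval (x : ℝ) ≠ 0 →
      (derivative (pA (z ∘ q))).eval x ≠ 0 := by
    intro x hx h
    apply hx
    rw [← map_pA z q, derivative_map]
    have := Polynomial.eval_intCast_map (Int.castRingHom ℝ) (derivative (pA (z ∘ q))) x
    rw [this, Int.cast_id, h]
    simp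
  refine ⟨⟨z ∘ q, ![(T : ℤ), -(T : ℤ)], ∏ i, ((1 : ℤ) * T - (z ∘ q) i), ?_, ?_, ?_, ?_, ?_, ?_⟩,
    (T : ℝ) ^ n / 2, (T : ℝ) ^ n, by positivity, ?_, ?_⟩
  · intro i i' h
    apply q.injective
    apply rt_inj he hαR hαR2 hδR hδR1 (p := p + 1) (j := j)
    have h1 : (z (q i) : ℝ) = z (q i') := by
      have : z (q i) = z (q i') := h
      rw [this]
    rw [hzR, hzR] at h1
    exact mul_left_cancel₀ hTR.ne' h1
  · intro x y h
    fin_cases x <;> fin_cases y <;> simp at h ⊢ <;> omega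
  · exact_mod_cast hposQ
  · intro x
    rw [eval_pA]
    fin_cases x
    · simp
    · rw [heq]
      simp
  · intro x
    fin_cases x
    · apply hder0
      simpa using hderR.2
    · apply hder0
      simpa using hderR.1
  · intro x
    refine ⟨q.symm (some (Sum.inr (0, false))), ?_⟩
    have h1 : z (some (Sum.inr (0, false))) = 2 * T := by exact_mod_cast hlo0
    rw [Function.comp_apply, Equiv.apply_symm_apply, h1]
    fin_cases x <;> simp <;> omega
  · have : (0 : ℝ) < (T : ℝ) ^ n := by positivity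
    linarith
  · intro v hv1 hv2
    have hTn : (0 : ℝ) < (T : ℝ) ^ n := by positivity
    have hcnt := count (e := e) (p := p + 1) (j := j) (δ := δ) (α := α) he hj hαR hαR2 hδR hδR1
      (v / (T : ℝ) ^ n) ?_ ?_
    · rw [← hcnt]
      have hset : {X : ℝ | ∏ i, (X - (((z ∘ q) i : ℤ) : ℝ)) = - v} =
          (fun x => (T : ℝ) * x) ''
            {x : ℝ | (PP (rt e (p + 1) j (δ : ℝ) (α : ℝ))).eval x = - (v / (T : ℝ) ^ n)} := by
        ext X
        have h1 : ∏ i, (X - (((z ∘ q) i : ℤ) : ℝ)) = (T : ℝ) ^ n *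
            (PP (rt e (p + 1) j (δ : ℝ) (α : ℝ))).eval (X / T) := by
          have h2 : ∏ i, (X - (((z ∘ q) i : ℤ) : ℝ)) = ∏ i, (X - (z i : ℝ)) :=
            Equiv.prod_comp q (fun i => X - (z i : ℝ))
          rw [h2, eval_PP]
          have h3 : (T : ℝ) ^ n = ∏ _i : Ix e (p + 1), (T : ℝ) := by
            rw [Finset.prod_const, Finset.card_univ, hcard]
          rw [h3, ← Finset.prod_mul_distrib]
          refine Finset.prod_congr rfl fun i _ => ?_
          rw [hzR i]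
          field_simp
        simp only [Set.mem_ofPred_eq, Set.mem_image]
        rw [h1]
        constructor
        · intro h
          refine ⟨X / T, ?_, by field_simp⟩
          rw [← neg_div, eq_div_iff hTn.ne']
          linarith
        · rintro ⟨x, hx, rfl⟩
          rw [mul_div_cancel_left₀ _ hTR.ne', hx]
          field_simp
      change {X : ℝ | ∏ i, (X - (((z ∘ q) i : ℤ) : ℝ)) = - v}.ncard = _
      rw [hset, Set.ncard_image_of_injective _ (mul_right_injective₀ hTR.ne')]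
    · rw [lt_div_iff₀ hTn]
      have h1 : (δ : ℝ) * (4 * ((p + 1 : ℕ) : ℝ) + 8) ^ (1 + e + 2 * (p + 1)) = 1 / 2 := by
        have h2 : δ * M ^ n = 1 / 2 := by
          rw [hδdef]
          have : M ^ n ≠ 0 := by positivity
          field_simp
        have h3 : ((δ * M ^ n : ℚ) : ℝ) = ((1 / 2 : ℚ) : ℝ) := by rw [h2]
        rw [hM] at h3
        push_cast at h3 ⊢
        exact h3
      rw [h1]
      linarith
    · rw [div_lt_one hTn]
      exact hv2

end Pool.Agent.R713.AS
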