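import Mathlib

/-!
# Counting the real solutions of `∏ (x - a i) = - v` in one interval between two roots
-/

set_option autoImplicit false

namespace Pool.Agent.R713.AS

open Polynomial

variable {ι : Type} [Fintype ι]

/-- the polynomial with the roots `a i` -/
noncomputable def PP {R : Type} [CommRing R] (a : ι → R) : R[X] := ∏ i, (X - C (a i))

theorem eval_PP {R : Type} [CommRing R] (a : ι → R) (x : R) :
    (PP a).eval x = ∏ i, (x - a i) := by
  rw [PP, eval_prod]
  exact Finset.prod_congr rfl fun i _ => by simp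

theorem eval_der {R : Type} [Field R] (a : ι → R) (x : R) (hx : ∀ i, x ≠ a i) :
    (derivative (PP a)).eval x = (PP a).eval x * ∑ i, (x - a i)⁻¹ := by
  classical
  rw [PP, derivative_prod_finset, eval_finsetSum, Finset.mul_sum]
  refine Finset.sum_congr rfl fun i _ => ?_
  rw [eval_mul, eval_prod, eval_prod, derivative_sub, derivative_X, derivative_C, sub_zero,
    eval_one, mul_one, ← Finset.prod_erase_mul _ _ (Finset.mem_univ i)]
  have h : x - a i ≠ 0 := sub_ne_zero.2 (hx i)
  simp only [eval_sub, eval_X, eval_C]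
  rw [mul_assoc, mul_inv_cancel₀ h, mul_one]

/-- at most one critical point in a gap -/
theorem crit [Nonempty ι] (a : ι → ℝ) (c d : ℝ) (h : c < d) (hs : ∀ i, 0 < (c - a i) * (d - a i))
    (hc : (derivative (PP a)).eval c = 0) (hd : (derivative (PP a)).eval d = 0) : False := by
  have hc0 : ∀ i, c - a i ≠ 0 := fun i h0 => by
    have := hs i
    rw [h0, zero_mul] at this
    exact lt_irrefl _ this
  have hd0 : ∀ i, d - a i ≠ 0 := fun i h0 => by
    have := hs i
    rw [h0, mul_zero] at this
    exact lt_irrefl _ this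
  rw [eval_der a c fun i => sub_ne_zero.1 (hc0 i)] at hc
  rw [eval_der a d fun i => sub_ne_zero.1 (hd0 i)] at hd
  have h1 : (PP a).eval c ≠ 0 := by
    rw [eval_PP]
    exact Finset.prod_ne_zero_iff.2 fun i _ => hc0 i
  have h2 : (PP a).eval d ≠ 0 := by
    rw [eval_PP]
    exact Finset.prod_ne_zero_iff.2 fun i _ => hd0 i
  have h3 := (mul_eq_zero.1 hc).resolve_left h1
  have h4 := (mul_eq_zero.1 hd).resolve_left h2
  have h5 : 0 < ∑ i, ((c - a i)⁻¹ - (d - a i)⁻¹) := by
    refine Finset.sum_pos (fun i _ => ?_) Finset.univ_nonempty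
    have h6 : (c - a i)⁻¹ - (d - a i)⁻¹ = (d - c) / ((c - a i) * (d - a i)) := by
      field_simp [hc0 i, hd0 i]
      ring
    rw [h6]
    exact div_pos (by linarith) (hs i)
  rw [Finset.sum_sub_distrib, h3, h4] at h5
  linarith

/-- Rolle -/
theorem rolle (a : ι → ℝ) (x y : ℝ) (h : x < y) (he : (PP a).eval x = (PP a).eval y) :
    ∃ c, x < c ∧ c < y ∧ (derivative (PP a)).eval c = 0 := by
  obtain ⟨c, hc, h1⟩ := exists_hasDerivAt_eq_zero (f := fun z => (PP a).eval z)
    (f' := fun z => (derivative (PP a)).eval z) h (PP a).continuous.continuousOn he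
    (fun z _ => (PP a).hasDerivAt z)
  exact ⟨c, hc.1, hc.2, h1⟩

/-- no three solutions in a gap -/
theorem three [Nonempty ι] (a : ι → ℝ) (l r x y z : ℝ) (hg : ∀ i, a i ≤ l ∨ r ≤ a i)
    (hlx : l < x) (hxy : x < y) (hyz : y < z) (hzr : z < r)
    (h1 : (PP a).eval x = (PP a).eval y) (h2 : (PP a).eval y = (PP a).eval z) : False := by
  obtain ⟨c, hc1, hc2, hc⟩ := rolle a x y hxy h1
  obtain ⟨d, hd1, hd2, hd⟩ := rolle a y z hyz h2
  refine crit a c d (by linarith) (fun i => ?_) hc hd
  rcases hg i with h | h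
  · exact mul_pos (by linarith) (by linarith)
  · exact mul_pos_of_neg_of_neg (by linarith) (by linarith)

/-- the derivative does not vanish at a point where the value is taken twice in the gap -/
theorem der_ne [Nonempty ι] (a : ι → ℝ) (l r x y : ℝ) (hg : ∀ i, a i ≤ l ∨ r ≤ a i)
    (hlx : l < x) (hxy : x < y) (hyr : y < r) (h1 : (PP a).eval x = (PP a).eval y) :
    (derivative (PP a)).eval x ≠ 0 ∧ (derivative (PP a)).eval y ≠ 0 := by
  obtain ⟨c, hc1, hc2, hc⟩ := rolle a x y hxy h1
  refine ⟨fun h => crit a x c hc1 (fun i => ?_) h hc, fun h => crit a c y hc2 (fun i => ?_) hc h⟩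
  · rcases hg i with h | h
    · exact mul_pos (by linarith) (by linarith)
    · exact mul_pos_of_neg_of_neg (by linarith) (by linarith)
  · rcases hg i with h | h
    · exact mul_pos (by linarith) (by linarith)
    · exact mul_pos_of_neg_of_neg (by linarith) (by linarith)

/-- exactly two solutions in a deep gap -/
theorem gap [Nonempty ι] (a : ι → ℝ) (l r m v : ℝ) (hg : ∀ i, a i ≤ l ∨ r ≤ a i)
    (hl : (PP a).eval l = 0) (hr : (PP a).eval r = 0) (hlm : l < m) (hmr : m < r) (hv : 0 < v)
    (hm : (PP a).eval m < - v) :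
    ({x : ℝ | (PP a).eval x = - v} ∩ Set.Ioo l r).ncard = 2 := by
  have hcont : Continuous fun z => (PP a).eval z := (PP a).continuous
  obtain ⟨x, ⟨hx1, hx2⟩, hx⟩ := intermediate_value_Icc' hlm.le hcont.continuousOn
    (show - v ∈ Set.Icc ((PP a).eval m) ((PP a).eval l) from ⟨hm.le, by rw [hl]; linarith⟩)
  obtain ⟨y, ⟨hy1, hy2⟩, hy⟩ := intermediate_value_Icc hmr.le hcont.continuousOn
    (show - v ∈ Set.Icc ((PP a).eval m) ((PP a).eval r) from ⟨hm.le, by rw [hr]; linarith⟩)
  simp only at hx hy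
  have hxl : l < x := lt_of_le_of_ne hx1 fun h => by rw [← h, hl] at hx; linarith
  have hxm : x < m := lt_of_le_of_ne hx2 fun h => by rw [h] at hx; linarith
  have hym : m < y := lt_of_le_of_ne hy1 fun h => by rw [← h] at hy; linarith
  have hyr : y < r := lt_of_le_of_ne hy2 fun h => by rw [h, hr] at hy; linarith
  have hset : {x : ℝ | (PP a).eval x = - v} ∩ Set.Ioo l r = {x, y} := by
    ext z
    simp only [Set.mem_inter_iff, Set.mem_ofPred_eq, Set.mem_Ioo, Set.mem_insert_iff,
      Set.mem_singleton_iff]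
    constructor
    · rintro ⟨hz, hzl, hzr⟩
      by_contra hne
      push Not at hne
      rcases lt_or_gt_of_ne hne.1 with h1 | h1
      · exact three a l r z x y hg hzl h1 (by linarith) hyr (by rw [hz, hx]) (by rw [hx, hy])
      · rcases lt_or_gt_of_ne hne.2 with h2 | h2
        · exact three a l r x z y hg hxl h1 h2 hyr (by rw [hz, hx]) (by rw [hz, hy])
        · exact three a l r x y z hg hxl (by linarith) h2 hzr (by rw [hy, hx]) (by rw [hz, hy])
    · rintro (rfl | rfl)
      · exact ⟨hx, hxl, by linarith⟩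
      · exact ⟨hy, by linarith, hyr⟩
  rw [hset, Set.ncard_pair (by linarith)]

/-- exactly one solution to the left of all roots -/
theorem left [Nonempty ι] (a : ι → ℝ) (l v : ℝ) (hg : ∀ i, l ≤ a i)
    (hl : (PP a).eval l = 0) (hv : 0 < v) (hm : (PP a).eval (l - 1) < - v) :
    ({x : ℝ | (PP a).eval x = - v} ∩ Set.Iio l).ncard = 1 := by
  have hcont : Continuous fun z => (PP a).eval z := (PP a).continuous
  obtain ⟨x, ⟨hx1, hx2⟩, hx⟩ := intermediate_value_Icc (show l - 1 ≤ l by linarith)
    hcont.continuousOn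
    (show - v ∈ Set.Icc ((PP a).eval (l - 1)) ((PP a).eval l) from ⟨hm.le, by rw [hl]; linarith⟩)
  simp only at hx
  have hxl : x < l := lt_of_le_of_ne hx2 fun h => by rw [h, hl] at hx; linarith
  have key : ∀ y z : ℝ, y < z → z < l → (PP a).eval y = (PP a).eval z → False := by
    intro y z hyz hzl h
    obtain ⟨c, hc1, hc2, hc⟩ := rolle a y z hyz h
    have hne : ∀ i, c - a i < 0 := fun i => by have := hg i; linarith
    rw [eval_der a c fun i => (sub_ne_zero.1 (hne i).ne)] at hc
    have h1 : (PP a).eval c ≠ 0 := by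
      rw [eval_PP]
      exact Finset.prod_ne_zero_iff.2 fun i _ => (hne i).ne
    have h3 := (mul_eq_zero.1 hc).resolve_left h1
    have h5 : ∑ i, (c - a i)⁻¹ < 0 :=
      Finset.sum_neg (fun i _ => inv_lt_zero.2 (hne i)) Finset.univ_nonempty
    linarith
  have hset : {x : ℝ | (PP a).eval x = - v} ∩ Set.Iio l = {x} := by
    ext z
    simp only [Set.mem_inter_iff, Set.mem_ofPred_eq, Set.mem_Iio, Set.mem_singleton_iff]
    constructor
    · rintro ⟨hz, hzl⟩
      by_contra hne
      rcases lt_or_gt_of_ne hne with h1 | h1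
      · exact key z x h1 hxl (by rw [hz, hx])
      · exact key x z h1 hzl (by rw [hz, hx])
    · rintro rfl
      exact ⟨hx, hxl⟩
  rw [hset, Set.ncard_singleton]

/-- counting by pieces -/
theorem ncard_pieces {κ : Type} [Fintype κ] [Nonempty κ] (S : Set ℝ) (hS : S.Finite) (I : κ → Set ℝ)
    (hcov : ∀ x ∈ S, ∃ k, x ∈ I k) (hdis : ∀ k k' x, x ∈ I k → x ∈ I k' → k = k') (c : κ → ℕ)
    (hc : ∀ k, (S ∩ I k).ncard = c k) : S.ncard = ∑ k, c k := by
  classical
  choose! g hg using hcov
  rw [Set.ncard_eq_toFinset_card S hS,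
    Finset.card_eq_sum_card_fiberwise (f := g) (t := Finset.univ) (fun x _ => by simp)]
  refine Finset.sum_congr rfl fun k _ => ?_
  rw [← hc k, ← Set.ncard_coe_finset]
  congr 1
  ext x
  simp only [Finset.coe_filter, Set.Finite.mem_toFinset, Set.mem_ofPred_eq, Set.mem_inter_iff]
  constructor
  · rintro ⟨h1, h2⟩
    exact ⟨h1, h2 ▸ hg x h1⟩
  · rintro ⟨h1, h2⟩
    exact ⟨h1, hdis _ _ x (hg x h1) h2⟩

end Pool.Agent.R713.AS
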